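import Pool.Agent.H90.KT.Sing

/-! # The number of the tuples, and the weighted number -/

set_option autoImplicit false

namespace Pool.Agent.H90.KT

open Finset Filter Topology Pool.Agent.H90.SK
open Pool.Agent.Results.MP_485179_nt.AlmostPrimeProgressions (𝔖 adm_of_ne)
open Pool.Agent.H386R2.HL Pool.Agent.H387R2.Uni
open Pool.Agent.H373R2.T7 (nuP singZ lamP)
open Pool.Agent.H735K (Fa phF redF thT tP GoodT thmK)

variable {k : ℕ}

open Classical in
/-- the prime tuples -/
noncomputable def PT (D : Finset ℕ) (x q a : ℕ) : Finset ℕ :=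
  (Icc 1 x).filter (fun m => m ≡ a [MOD q] ∧ m.Prime ∧ ∀ d ∈ D, (m + d).Prime)

/-- the weighted number -/
noncomputable def th (D : Finset ℕ) (hD : D.card = k) (x q a : ℕ) : ℝ :=
  thT (fun _ : Fin k => (1 : ℤ)) (fun i => (hh D hD i : ℤ)) x q a

theorem lamP_nat (n : ℕ) : lamP (n : ℤ) = if n.Prime then Real.log n else 0 := by
  unfold lamP
  rw [Int.toNat_natCast]

theorem tP_nonneg (ε h : Fin k → ℤ) (m : ℕ) : 0 ≤ tP ε h m := by
  unfold tP
  exact mul_nonneg (Pool.Agent.H373R2.T7.lamP_nonneg _) (prod_nonneg fun i _ => Pool.Agent.H373R2.T7.lamP_nonneg _)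

theorem tP_eq (D : Finset ℕ) (hD : D.card = k) (m : ℕ) (hp : m.Prime) (hd : ∀ d ∈ D, (m + d).Prime) :
    tP (fun _ : Fin k => (1 : ℤ)) (fun i => (hh D hD i : ℤ)) m = Real.log m * ∏ i, Real.log ((m + hh D hD i : ℕ) : ℝ) := by
  unfold tP
  rw [lamP_nat, if_pos hp]
  congr 1
  apply prod_congr rfl
  intro i _
  have e : (1 : ℤ) * (m : ℤ) + (hh D hD i : ℤ) = ((m + hh D hD i : ℕ) : ℤ) := by push_cast; ring
  rw [e, lamP_nat, if_pos (hd _ (hh_mem D hD i))]

theorem tP_zero (D : Finset ℕ) (hD : D.card = k) (m : ℕ) (h : ¬ (m.Prime ∧ ∀ d ∈ D, (m + d).Prime)) :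
    tP (fun _ : Fin k => (1 : ℤ)) (fun i => (hh D hD i : ℤ)) m = 0 := by
  unfold tP
  by_cases hp : m.Prime
  · have h1 : ¬ ∀ d ∈ D, (m + d).Prime := fun h2 => h ⟨hp, h2⟩
    push Not at h1
    obtain ⟨d, hd, hnp⟩ := h1
    obtain ⟨i, hi⟩ := hh_surj D hD hd
    have h2 : lamP ((1 : ℤ) * (m : ℤ) + (hh D hD i : ℤ)) = 0 := by
      have e : (1 : ℤ) * (m : ℤ) + (hh D hD i : ℤ) = ((m + hh D hD i : ℕ) : ℤ) := by push_cast; ring
      rw [e, lamP_nat, if_neg (by rw [hi]; exact hnp)]
    rw [prod_eq_zero (mem_univ i) h2, mul_zero]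
  · rw [lamP_nat, if_neg hp, zero_mul]

theorem th_eq (D : Finset ℕ) (hD : D.card = k) (x q a : ℕ) :
    th D hD x q a = ∑ m ∈ PT D x q a, tP (fun _ : Fin k => (1 : ℤ)) (fun i => (hh D hD i : ℤ)) m := by
  classical
  unfold th thT
  symm
  apply sum_subset
  · intro m hm
    unfold PT at hm
    rw [mem_filter] at hm ⊢
    exact ⟨hm.1, hm.2.1⟩
  · intro m hm1 hm2
    apply tP_zero
    intro h
    apply hm2
    rw [mem_filter] at hm1
    unfold PT
    rw [mem_filter]
    exact ⟨hm1.1, hm1.2, h.1, h.2⟩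

theorem th_le (D : Finset ℕ) (hD : D.card = k) {N x : ℕ} (hx : x ≤ N) (hDN : ∀ d ∈ D, d ≤ N) (q a : ℕ) :
    th D hD x q a ≤ Real.log ((2 * N : ℕ) : ℝ) ^ (k + 1) * (PT D x q a).card := by
  classical
  rw [th_eq, mul_comm, ← nsmul_eq_mul, ← sum_const]
  apply sum_le_sum
  intro m hm
  unfold PT at hm
  rw [mem_filter, mem_Icc] at hm
  obtain ⟨⟨h1, h2⟩, _, h3, h4⟩ := hm
  rw [tP_eq D hD m h3 h4, pow_succ, mul_comm]
  have hm0 : (1 : ℝ) ≤ m := by exact_mod_cast h1
  apply mul_le_mul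
  · calc ∏ i, Real.log ((m + hh D hD i : ℕ) : ℝ) ≤ ∏ _i : Fin k, Real.log ((2 * N : ℕ) : ℝ) := by
          apply Finset.prod_le_prod
          · intro i _
            exact Real.log_natCast_nonneg _
          · intro i _
            have h5 := hDN _ (hh_mem D hD i)
            apply Real.log_le_log
            · exact_mod_cast (by omega : 0 < m + hh D hD i)
            · exact_mod_cast (by omega : m + hh D hD i ≤ 2 * N)
      _ = _ := by rw [prod_const, card_univ, Fintype.card_fin]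
  · apply Real.log_le_log (by linarith)
    exact_mod_cast (by omega : m ≤ 2 * N)
  · exact Real.log_natCast_nonneg _
  · exact pow_nonneg (Real.log_natCast_nonneg _) _

theorem card_le_th (D : Finset ℕ) (hD : D.card = k) (x q a : ℕ) {y : ℝ} (hy : 1 < y) :
    ((PT D x q a).card : ℝ) ≤ y + th D hD x q a / Real.log y ^ (k + 1) := by
  classical
  have hl : 0 < Real.log y := Real.log_pos hy
  have h1 : (PT D x q a).card = ((PT D x q a).filter (fun m : ℕ => (m : ℝ) ≤ y)).card +
      ((PT D x q a).filter (fun m : ℕ => ¬ (m : ℝ) ≤ y)).card := (card_filter_add_card_filter_not _).symm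
  have h2 : (((PT D x q a).filter (fun m : ℕ => (m : ℝ) ≤ y)).card : ℝ) ≤ y := by
    have h3 : (PT D x q a).filter (fun m : ℕ => (m : ℝ) ≤ y) ⊆ Icc 1 ⌊y⌋₊ := by
      intro m hm
      rw [mem_filter] at hm
      unfold PT at hm
      rw [mem_filter, mem_Icc] at hm
      rw [mem_Icc]
      exact ⟨hm.1.1.1, Nat.le_floor hm.2⟩
    have h4 := card_le_card h3
    rw [Nat.card_Icc, Nat.add_sub_cancel] at h4
    calc (((PT D x q a).filter (fun m : ℕ => (m : ℝ) ≤ y)).card : ℝ) ≤ (⌊y⌋₊ : ℝ) := by exact_mod_cast h4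
      _ ≤ y := Nat.floor_le (by linarith)
  have h3 : (((PT D x q a).filter (fun m : ℕ => ¬ (m : ℝ) ≤ y)).card : ℝ) ≤ th D hD x q a / Real.log y ^ (k + 1) := by
    rw [le_div_iff₀ (by positivity), th_eq, ← nsmul_eq_mul, ← sum_const]
    refine le_trans ?_ (sum_le_sum_of_subset_of_nonneg (filter_subset (fun m : ℕ => ¬ (m : ℝ) ≤ y) (PT D x q a))
      (fun m _ _ => tP_nonneg _ _ m))
    apply sum_le_sum
    intro m hm
    rw [mem_filter] at hm
    obtain ⟨hm1, hm2⟩ := hm
    unfold PT at hm1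
    rw [mem_filter, mem_Icc] at hm1
    obtain ⟨⟨h1, h2⟩, _, h3, h4⟩ := hm1
    rw [not_le] at hm2
    rw [tP_eq D hD m h3 h4, pow_succ, mul_comm (Real.log m)]
    apply mul_le_mul
    · calc Real.log y ^ k = ∏ _i : Fin k, Real.log y := by rw [prod_const, card_univ, Fintype.card_fin]
        _ ≤ _ := by
          apply Finset.prod_le_prod
          · intro i _
            exact hl.le
          · intro i _
            apply Real.log_le_log (by linarith)
            push_cast
            have : (0 : ℝ) ≤ hh D hD i := Nat.cast_nonneg _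
            linarith
    · exact Real.log_le_log (by linarith) hm2.le
    · exact hl.le
    · exact prod_nonneg fun i _ => Real.log_natCast_nonneg _
  rw [h1]
  push_cast
  linarith

/-- the classes that are not admissible -/
theorem card_closed (D : Finset ℕ) {x q a : ℕ} (hq : 1 ≤ q) (h : ¬ AD (omT (insert 0 D)) q a) :
    (PT D x q a).card ≤ q := by
  classical
  unfold AD at h
  push Not at h
  obtain ⟨p, hp, hpa⟩ := h
  have hpp := Nat.prime_of_mem_primeFactors hp
  have hpq := Nat.dvd_of_mem_primeFactors hp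
  have hple := Nat.le_of_dvd (by omega) hpq
  obtain ⟨t, ht, hd⟩ := (mem_omT _ hpp.pos a).1 hpa
  have hsub : PT D x q a ⊆ Icc 1 q := by
    intro m hm
    unfold PT at hm
    rw [mem_filter, mem_Icc] at hm
    obtain ⟨⟨h1, h2⟩, h5, h3, h4⟩ := hm
    rw [mem_Icc]
    refine ⟨h1, ?_⟩
    have h6 : (m + t) ≡ a + t [MOD p] := (h5.of_dvd hpq).add_right t
    have h7 : p ∣ m + t := (Nat.ModEq.dvd_iff h6 dvd_rfl).2 hd
    have h8 : (m + t).Prime := by
      rcases mem_insert.1 ht with h0 | h0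
      · rw [h0, add_zero]
        exact h3
      · exact h4 t h0
    have h9 := (Nat.prime_dvd_prime_iff_eq hpp h8).1 h7
    omega
  have := card_le_card hsub
  rwa [Nat.card_Icc, Nat.add_sub_cancel] at this

end Pool.Agent.H90.KT
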