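import Pool.Agent.H90.KT.Cnt

/-! # The formula in the fixed classes, for almost all sets of shifts -/

set_option autoImplicit false

namespace Pool.Agent.H90.KT

open Finset Filter Topology Pool.Agent.H90.SK
open Pool.Agent.Results.MP_485179_nt.AlmostPrimeProgressions (𝔖 adm_of_ne)
open Pool.Agent.H386R2.HL Pool.Agent.H387R2.Uni
open Pool.Agent.H373R2.T7 (nuP singZ lamP singZ_low)
open Pool.Agent.H735K (Fa phF redF thT tP GoodT thmK)

variable {k : ℕ}

/-- the main term -/
noncomputable def mn (k : ℕ) (D : Finset ℕ) (x : ℝ) : ℝ := 𝔖 (insert 0 D) * x / Real.log x ^ (k + 1)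

theorem adm_ha {D : Finset ℕ} (hD : D.card = k) (h : 𝔖 (insert 0 D) ≠ 0) :
    Pool.Agent.H373R2.T7.Admissible (ha D hD) := by
  intro p hp
  have h1 := adm_of_ne h p hp
  rw [← card_omT (insert 0 D) hp] at h1
  obtain ⟨n, hn1, hn2⟩ := exists_mem_notMem_of_card_lt_card (s := omT (insert 0 D) p) (t := range p)
    (by rw [card_range]; exact h1)
  rw [mem_range] at hn1
  have h2 : ¬ (p ∣ n ∨ ∃ i, (p : ℤ) ∣ (n : ℤ) + ha D hD i) := by
    intro h3
    apply hn2
    have h4 := (mem_omT (insert 0 D) hp.pos n).2 ((dvd_iff D hD p n).1 h3)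
    rwa [Nat.mod_eq_of_lt hn1] at h4
  push Not at h2
  exact ⟨n, fun h3 => h2.1 (by exact_mod_cast h3), h2.2⟩

theorem S_low (k : ℕ) : ∃ c : ℝ, 0 < c ∧ ∀ D : Finset ℕ, D.card = k → 0 ∉ D → 𝔖 (insert 0 D) ≠ 0 →
    c ≤ 𝔖 (insert 0 D) := by
  obtain ⟨c, hc, h⟩ := singZ_low k
  refine ⟨c, hc, fun D hD h0 hS => ?_⟩
  have h1 := h (ha D hD) (adm_ha hD hS)
  apply ge_of_tendsto (lim_S (insert 0 D))
  filter_upwards with z
  rw [← singZ_eq D hD h0]
  exact h1 z

/-- the largeness conditions -/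
theorem large (Bq B C₀ k P : ℕ) (κ c₀ : ℝ) (hκ : 0 < κ) (hc₀ : 0 < c₀) : ∃ N₀ : ℕ, ∀ N : ℕ, N₀ ≤ N →
    3 ≤ N ∧ (P : ℝ) ≤ N * Real.exp (-(Bq * Real.log (Real.log N) ^ 2)) ∧
    1 ≤ Real.log N - (B + C₀ : ℕ) * Real.log (Real.log N) ∧
    (Real.log ((2 * N : ℕ) : ℝ) / (Real.log N - (B + C₀ : ℕ) * Real.log (Real.log N))) ^ (k + 1) ≤ 1 + κ ∧
    2 / (κ * c₀) ≤ Real.log N ^ 2 ∧ (P : ℝ) / (κ * c₀) ≤ N / Real.log N ^ (B + k + 1) := by
  have hL : Tendsto (fun N : ℕ => Real.log (N : ℝ)) atTop atTop := Real.tendsto_log_atTop.comp tendsto_natCast_atTop_atTop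
  have hlo : ∀ n : ℕ, ∀ c : ℝ, 0 < c → ∀ᶠ L : ℝ in atTop, Real.log L ^ n ≤ c * L := by
    intro n c hc
    have h1 := (Real.isLittleO_pow_log_id_atTop (n := n)).def hc
    filter_upwards [h1, eventually_ge_atTop (1 : ℝ)] with L h2 h3
    rw [Real.norm_of_nonneg (pow_nonneg (Real.log_nonneg h3) n), id, Real.norm_of_nonneg (by linarith)] at h2
    exact h2
  -- (b)
  have hb : ∀ᶠ N : ℕ in atTop, (P : ℝ) ≤ N * Real.exp (-(Bq * Real.log (Real.log N) ^ 2)) := by
    have h1 := hL.eventually (hlo 2 (1 / (2 * (Bq + 1))) (by positivity))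
    have h2 : ∀ᶠ N : ℕ in atTop, (P : ℝ) ^ 2 ≤ N := by
      have := tendsto_natCast_atTop_atTop (R := ℝ)
      exact this.eventually_ge_atTop _
    filter_upwards [h1, h2, eventually_ge_atTop 1, hL.eventually_ge_atTop 0] with N h3 h4 h5 h6
    have hN0 : (0 : ℝ) < N := by exact_mod_cast h5
    have h7 : (Bq : ℝ) * Real.log (Real.log N) ^ 2 ≤ 1 / 2 * Real.log N := by
      have h8 : (Bq : ℝ) * Real.log (Real.log N) ^ 2 ≤ Bq * (1 / (2 * (Bq + 1)) * Real.log N) :=
        mul_le_mul_of_nonneg_left h3 (Nat.cast_nonneg _)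
      refine h8.trans ?_
      have h9 : (Bq : ℝ) * (1 / (2 * (Bq + 1)) * Real.log N) = (Bq / (Bq + 1)) * (1 / 2 * Real.log N) := by
        field_simp
      rw [h9]
      apply mul_le_of_le_one_left (by positivity)
      rw [div_le_one (by positivity)]
      linarith
    have h10 : Real.exp (-(1 / 2 * Real.log N)) ≤ Real.exp (-(Bq * Real.log (Real.log N) ^ 2)) :=
      Real.exp_le_exp.2 (by linarith)
    have h11 : (N : ℝ) * Real.exp (-(1 / 2 * Real.log N)) = √(N : ℝ) := by
      have e1 : (N : ℝ) = Real.exp (Real.log N) := (Real.exp_log hN0).symm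
      have e2 : √(N : ℝ) = Real.exp (1 / 2 * Real.log N) := by
        rw [Real.sqrt_eq_rpow, Real.rpow_def_of_pos hN0]
        congr 1
        ring
      rw [e2]
      nth_rw 1 [e1]
      rw [← Real.exp_add]
      congr 1
      ring
    calc (P : ℝ) ≤ √(N : ℝ) := Real.le_sqrt_of_sq_le h4
      _ = N * Real.exp (-(1 / 2 * Real.log N)) := h11.symm
      _ ≤ _ := mul_le_mul_of_nonneg_left h10 hN0.le
  -- (c)
  have hratio : Tendsto (fun L : ℝ => (Real.log 2 + L) / (L - (B + C₀ : ℕ) * Real.log L)) atTop (𝓝 1) := by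
    have h1 : Tendsto (fun L : ℝ => Real.log L / L) atTop (𝓝 0) := by
      have := (Real.isLittleO_log_id_atTop).tendsto_div_nhds_zero
      exact this
    have h2 : Tendsto (fun L : ℝ => Real.log 2 / L) atTop (𝓝 0) := tendsto_const_nhds.div_atTop tendsto_id
    have h3 : Tendsto (fun L : ℝ => (Real.log 2 / L + 1) / (1 - (B + C₀ : ℕ) * (Real.log L / L))) atTop
        (𝓝 ((0 + 1) / (1 - (B + C₀ : ℕ) * 0))) := by
      apply Tendsto.div (h2.add_const 1) (tendsto_const_nhds.sub (h1.const_mul _))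
      simp
    have e : ((0 : ℝ) + 1) / (1 - (B + C₀ : ℕ) * 0) = 1 := by simp
    rw [e] at h3
    refine h3.congr' ?_
    filter_upwards [eventually_gt_atTop (0 : ℝ)] with L hL0
    have hLne : L ≠ 0 := hL0.ne'
    rw [show Real.log 2 / L + 1 = (Real.log 2 + L) / L by field_simp,
      show 1 - ((B + C₀ : ℕ) : ℝ) * (Real.log L / L) = (L - (B + C₀ : ℕ) * Real.log L) / L by field_simp,
      div_div_div_cancel_right₀ hLne]
  have hc : ∀ᶠ N : ℕ in atTop, (Real.log ((2 * N : ℕ) : ℝ) /
      (Real.log N - (B + C₀ : ℕ) * Real.log (Real.log N))) ^ (k + 1) ≤ 1 + κ := by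
    have h1 := (hratio.pow (k + 1)).comp hL
    rw [one_pow] at h1
    have h2 := h1.eventually_le_const (show (1 : ℝ) < 1 + κ by linarith)
    filter_upwards [h2, eventually_ge_atTop 1] with N h3 h4
    have hN0 : (0 : ℝ) < N := by exact_mod_cast h4
    have e : Real.log ((2 * N : ℕ) : ℝ) = Real.log 2 + Real.log N := by
      push_cast
      rw [Real.log_mul (by norm_num) hN0.ne']
    rw [e]
    exact h3
  -- (d)
  have hd : ∀ᶠ N : ℕ in atTop, 1 ≤ Real.log N - (B + C₀ : ℕ) * Real.log (Real.log N) := by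
    have h1 := hL.eventually (hlo 1 (1 / (2 * ((B + C₀ : ℕ) + 1))) (by positivity))
    filter_upwards [h1, hL.eventually_ge_atTop 2] with N h2 h3
    rw [pow_one] at h2
    have h4 : ((B + C₀ : ℕ) : ℝ) * Real.log (Real.log N) ≤ 1 / 2 * Real.log N := by
      have h8 := mul_le_mul_of_nonneg_left h2 (Nat.cast_nonneg (α := ℝ) (B + C₀))
      refine h8.trans ?_
      have h9 : ((B + C₀ : ℕ) : ℝ) * (1 / (2 * ((B + C₀ : ℕ) + 1)) * Real.log N) =
          (((B + C₀ : ℕ) : ℝ) / ((B + C₀ : ℕ) + 1)) * (1 / 2 * Real.log N) := by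
        field_simp
      rw [h9]
      apply mul_le_of_le_one_left (by positivity)
      rw [div_le_one (by positivity)]
      linarith
    linarith
  have he : ∀ᶠ N : ℕ in atTop, 2 / (κ * c₀) ≤ Real.log N ^ 2 :=
    ((tendsto_pow_atTop (by norm_num : (2 : ℕ) ≠ 0)).comp hL).eventually_ge_atTop _
  have hf : ∀ᶠ N : ℕ in atTop, (P : ℝ) / (κ * c₀) ≤ N / Real.log N ^ (B + k + 1) := by
    have h1 : ∀ᶠ N : ℕ in atTop, Real.log (N : ℝ) ^ (B + k + 1) ≤ (1 / ((P : ℝ) / (κ * c₀) + 1)) * N :=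
      (tendsto_natCast_atTop_atTop (R := ℝ)).eventually (hlo (B + k + 1) (1 / ((P : ℝ) / (κ * c₀) + 1)) (by positivity))
    filter_upwards [h1, hL.eventually_ge_atTop 1, eventually_ge_atTop 1] with N h2 h3 h4
    have h5 : 0 < Real.log (N : ℝ) ^ (B + k + 1) := by positivity
    rw [le_div_iff₀ h5]
    have h6 : (P : ℝ) / (κ * c₀) * Real.log (N : ℝ) ^ (B + k + 1) ≤
        (P : ℝ) / (κ * c₀) * ((1 / ((P : ℝ) / (κ * c₀) + 1)) * N) := mul_le_mul_of_nonneg_left h2 (by positivity)
    refine h6.trans ?_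
    rw [← mul_assoc]
    apply mul_le_of_le_one_left (Nat.cast_nonneg _)
    rw [mul_one_div, div_le_one (by positivity)]
    linarith
  obtain ⟨N₀, hN₀⟩ := eventually_atTop.1 (((hb.and hc).and (hd.and he)).and (hf.and (eventually_ge_atTop 3)))
  refine ⟨N₀, fun N hN => ?_⟩
  obtain ⟨⟨⟨h1, h2⟩, h3, h4⟩, h5, h6⟩ := hN₀ N hN
  exact ⟨h6, h1, h3, h2, h4, h5⟩

/-- the formula in the class `a` modulo `g` -/
def FL (k : ℕ) (κ : ℝ) (P B N : ℕ) (D : Finset ℕ) : Prop :=
  𝔖 (insert 0 D) ≠ 0 → ∀ x : ℕ, (N : ℝ) / Real.log N ^ B ≤ x → x ≤ N → ∀ g a : ℕ, 1 ≤ g → g ≤ P → a < g →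
    |((PT D x g a).card : ℝ) - mm (omT (insert 0 D)) g a * mn k D x| ≤ κ * mn k D x

theorem mm_le_one (Om : ℕ → Finset ℕ) (q a : ℕ) : mm Om q a ≤ 1 := by
  classical
  unfold mm
  split_ifs with h
  · rcases Nat.eq_zero_or_pos (ad Om q) with h0 | h0
    · rw [h0]
      simp
    · have : (1 : ℝ) ≤ ad Om q := by exact_mod_cast h0
      exact (div_le_one (by linarith)).2 this
  · norm_num

open Classical in
theorem fixedK (k B A P : ℕ) (κ : ℝ) (hκ : 0 < κ) : ∃ N₀ : ℕ, ∀ N : ℕ, N₀ ≤ N →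
    ((((Icc 1 N).powersetCard k).filter (fun D => ¬ FL k κ P B N D)).card : ℝ) ≤ (N : ℝ) ^ k / Real.log N ^ A := by
  obtain ⟨c₀, hc₀, hSlow⟩ := S_low k
  set C₀ : ℕ := k + 3 with hC₀
  set A' : ℕ := 2 * (B + C₀) + A with hA'
  obtain ⟨Bq, N₁, hN₁⟩ := thmK k A'
  obtain ⟨N₂, hN₂⟩ := large Bq B C₀ k P (κ / 2) c₀ (by positivity) hc₀
  refine ⟨max N₁ N₂, fun N hN => ?_⟩
  obtain ⟨hN3, hP, hd, hc, he, hf⟩ := hN₂ N ((le_max_right _ _).trans hN)
  have hcount := hN₁ N ((le_max_left _ _).trans hN) (fun _ => 1) (fun _ => Or.inl rfl)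
  have hN0 : (0 : ℝ) < N := by exact_mod_cast (by omega : 0 < N)
  have hL1 : 1 ≤ Real.log N := by
    rw [Real.le_log_iff_exp_le hN0]
    have h1 := Real.exp_one_lt_d9
    have h2 : (3 : ℝ) ≤ N := by exact_mod_cast hN3
    linarith
  have hLpos : 0 < Real.log N := by linarith
  set L := Real.log N with hLdef
  have hlogL : 0 ≤ Real.log L := Real.log_nonneg hL1
  set ℓ := L - (B + C₀ : ℕ) * Real.log L with hℓ
  -- a good set
  have key : ∀ D : Finset ℕ, D ∈ (Icc 1 N).powersetCard k → ∀ hD : D.card = k,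
      GoodT A' Bq N (fun _ : Fin k => (1 : ℤ)) (hh D hD) → FL k κ P B N D := by
    intro D hDm hD hG hS x hx1 hx2 g a hg1 hgP hag
    rw [mem_powersetCard] at hDm
    have hDN : ∀ d ∈ D, d ≤ N := fun d hd => (mem_Icc.1 (hDm.1 hd)).2
    have h0 : 0 ∉ D := by
      intro h
      have := (mem_Icc.1 (hDm.1 h)).1
      omega
    obtain ⟨S, hSlim, hG2⟩ := hG
    have hSeq : S = 𝔖 (insert 0 D) := by
      apply tendsto_nhds_unique hSlim
      refine (lim_S (insert 0 D)).congr fun z => ?_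
      rw [← singZ_eq D hD h0]
      rfl
    have hSc := hSlow D hD h0 hS
    have hS0 : 0 < 𝔖 (insert 0 D) := lt_of_lt_of_le hc₀ hSc
    -- the sizes
    have hLB : 0 < L ^ B := by positivity
    have hLC : 0 < L ^ C₀ := by positivity
    have hx0 : (0 : ℝ) < x := lt_of_lt_of_le (by positivity) hx1
    have hxN : (x : ℝ) ≤ N := by exact_mod_cast hx2
    obtain ⟨y, hy⟩ : ∃ y : ℝ, y = x / L ^ C₀ := ⟨_, rfl⟩
    have hy0 : 0 < y := by rw [hy]; positivity
    have hlx : ℓ ≤ Real.log x := by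
      have h1 : Real.log ((N : ℝ) / L ^ B) ≤ Real.log x := Real.log_le_log (by positivity) hx1
      rw [Real.log_div hN0.ne' hLB.ne', Real.log_pow] at h1
      rw [hℓ]
      push_cast
      nlinarith [mul_nonneg (Nat.cast_nonneg (α := ℝ) C₀) hlogL]
    have hly : ℓ ≤ Real.log y := by
      have h1 : Real.log ((N : ℝ) / L ^ B) ≤ Real.log x := Real.log_le_log (by positivity) hx1
      rw [Real.log_div hN0.ne' hLB.ne', Real.log_pow] at h1
      rw [hy, Real.log_div hx0.ne' hLC.ne', Real.log_pow, hℓ]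
      push_cast
      linarith
    have hy1 : 1 < y := by
      have h1 : 0 < Real.log y := by linarith
      exact (Real.log_pos_iff hy0.le).1 h1
    have hlx2 : Real.log x ≤ L := Real.log_le_log hx0 hxN
    have hlx0 : 0 < Real.log x := by linarith
    have hl2 : 0 < Real.log ((2 * N : ℕ) : ℝ) := Real.log_pos (by
      exact_mod_cast (by omega : 1 < 2 * N))
    have hl2x : Real.log x ≤ Real.log ((2 * N : ℕ) : ℝ) := by
      apply Real.log_le_log hx0
      push_cast
      linarith
    set M := mn k D x with hM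
    have hMdef : M = 𝔖 (insert 0 D) * x / Real.log x ^ (k + 1) := rfl
    have hMlow : c₀ * x / L ^ (k + 1) ≤ M := by
      rw [hMdef]
      apply div_le_div₀ (by positivity) (mul_le_mul_of_nonneg_right hSc hx0.le) (by positivity)
      exact pow_le_pow_left₀ hlx0.le hlx2 _
    have hM0 : 0 < M := lt_of_lt_of_le (by positivity) hMlow
    -- the small terms
    have hyM : 2 * y ≤ κ / 2 * M := by
      refine le_trans ?_ (mul_le_mul_of_nonneg_left hMlow (by positivity))
      rw [div_le_iff₀ (by positivity)] at he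
      rw [hy]
      have e1 : L ^ C₀ = L ^ (k + 1) * L ^ 2 := by rw [← pow_add]
      rw [e1]
      have e2 : 2 * ((x : ℝ) / (L ^ (k + 1) * L ^ 2)) = (x / L ^ (k + 1)) * (2 / L ^ 2) := by field_simp
      have e3 : κ / 2 * (c₀ * x / L ^ (k + 1)) = (x / L ^ (k + 1)) * (κ / 2 * c₀) := by ring
      rw [e2, e3]
      apply mul_le_mul_of_nonneg_left _ (by positivity)
      rw [div_le_iff₀ (by positivity)]
      linarith
    have hPM : (P : ℝ) ≤ κ / 2 * M := by
      rw [div_le_iff₀ (by positivity)] at hf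
      refine hf.trans ?_
      have e1 : (N : ℝ) / L ^ (B + k + 1) ≤ x / L ^ (k + 1) := by
        have e2 : L ^ (B + k + 1) = L ^ B * L ^ (k + 1) := by rw [← pow_add]; rfl
        rw [e2, ← div_div]
        exact div_le_div_of_nonneg_right hx1 (by positivity)
      calc (N : ℝ) / L ^ (B + k + 1) * (κ / 2 * c₀) ≤ x / L ^ (k + 1) * (κ / 2 * c₀) :=
            mul_le_mul_of_nonneg_right e1 (by positivity)
        _ = κ / 2 * (c₀ * x / L ^ (k + 1)) := by ring
        _ ≤ _ := mul_le_mul_of_nonneg_left hMlow (by positivity)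
    -- the ratio of the logarithms
    have hℓ1 : 1 ≤ ℓ := hd
    have hr1 : (1 : ℝ) / ℓ ^ (k + 1) ≤ (1 + κ / 2) * (1 / Real.log x ^ (k + 1)) := by
      have e1 : Real.log x ^ (k + 1) ≤ (1 + κ / 2) * ℓ ^ (k + 1) := by
        rw [div_pow, div_le_iff₀ (by positivity)] at hc
        exact (pow_le_pow_left₀ hlx0.le hl2x _).trans hc
      rw [mul_one_div, div_le_div_iff₀ (by positivity) (by positivity)]
      linarith
    have hr2 : (1 : ℝ) / Real.log x ^ (k + 1) ≤ (1 + κ / 2) * (1 / Real.log ((2 * N : ℕ) : ℝ) ^ (k + 1)) := by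
      have e1 : Real.log ((2 * N : ℕ) : ℝ) ^ (k + 1) ≤ (1 + κ / 2) * Real.log x ^ (k + 1) := by
        rw [div_pow, div_le_iff₀ (by positivity)] at hc
        refine hc.trans (mul_le_mul_of_nonneg_left ?_ (by positivity))
        exact pow_le_pow_left₀ (by linarith) hlx _
      rw [mul_one_div, div_le_div_iff₀ (by positivity) (by positivity)]
      linarith
    set c := ((PT D x g a).card : ℝ) with hcdef
    set w := mm (omT (insert 0 D)) g a with hw
    have hw0 : 0 ≤ w := mm_nonneg _ _ _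
    have hw1 : w ≤ 1 := mm_le_one _ _ _
    have hwM : w * M ≤ M := mul_le_of_le_one_left hM0.le hw1
    by_cases hAD : AD (omT (insert 0 D)) g a
    · -- an admissible class
      have hsum := hG2 N le_rfl (fun i m hm => by
        have := (mem_Icc.1 hm).1
        have h2 : (0 : ℤ) ≤ (hh D hD i : ℤ) := Int.natCast_nonneg _
        have h3 : (1 : ℤ) ≤ (m : ℤ) := by exact_mod_cast this
        linarith) P hP (fun _ _ => x) (fun _ _ => hx2)
      have hterm : (th D hD x g a - 𝔖 (insert 0 D) / (ad (omT (insert 0 D)) g) * x) ^ 2 ≤ (N : ℝ) ^ 2 / L ^ A' := by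
        refine le_trans ?_ hsum
        have hin : a ∈ redF (Fa (ha D hD)) g := by
          unfold redF
          rw [mem_filter, mem_range]
          exact ⟨hag, (redF_iff D hD hg1 a).2 hAD⟩
        have h1 : (th D hD x g a - 𝔖 (insert 0 D) / (ad (omT (insert 0 D)) g) * x) ^ 2 =
            (thT (fun _ : Fin k => (1 : ℤ)) (fun i => (hh D hD i : ℤ)) x g a -
              S / phF (Fa (fun i => (1 : ℤ) * (hh D hD i : ℤ))) g * x) ^ 2 := by
          have h2 : phF (Fa (fun i => (1 : ℤ) * (hh D hD i : ℤ))) g = ad (omT (insert 0 D)) g := phF_ad D hD hg1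
          rw [h2, hSeq]
          rfl
        rw [h1]
        refine le_trans ?_ (single_le_sum (f := fun q => ∑ r ∈ redF (Fa (fun i => (1 : ℤ) * (hh D hD i : ℤ))) q,
          (thT (fun _ : Fin k => (1 : ℤ)) (fun i => (hh D hD i : ℤ)) x q r -
              S / phF (Fa (fun i => (1 : ℤ) * (hh D hD i : ℤ))) q * x) ^ 2)
          (fun q _ => sum_nonneg fun r _ => sq_nonneg _) (mem_Icc.2 ⟨hg1, hgP⟩))
        exact single_le_sum (f := fun r => (thT (fun _ : Fin k => (1 : ℤ)) (fun i => (hh D hD i : ℤ)) x g r -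
              S / phF (Fa (fun i => (1 : ℤ) * (hh D hD i : ℤ))) g * x) ^ 2) (fun r _ => sq_nonneg _) hin
      have habs : |th D hD x g a - 𝔖 (insert 0 D) / (ad (omT (insert 0 D)) g) * x| ≤ y := by
        have h1 : (N : ℝ) ^ 2 / L ^ A' ≤ y ^ 2 := by
          have h2 : (N : ℝ) / L ^ (B + C₀) ≤ y := by
            rw [hy, pow_add, ← div_div]
            exact div_le_div_of_nonneg_right hx1 (by positivity)
          have h3 : (N : ℝ) ^ 2 / L ^ A' ≤ ((N : ℝ) / L ^ (B + C₀)) ^ 2 := by
            rw [div_pow, ← pow_mul]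
            apply div_le_div_of_nonneg_left (by positivity) (by positivity)
            apply pow_le_pow_right₀ hL1
            omega
          exact h3.trans (pow_le_pow_left₀ (by positivity) h2 2)
        exact abs_le_of_sq_le_sq (hterm.trans h1) hy0.le
      have hwv : w = 1 / (ad (omT (insert 0 D)) g : ℝ) := by
        rw [hw]
        unfold mm
        rw [if_pos hAD]
      have hSx : 𝔖 (insert 0 D) / (ad (omT (insert 0 D)) g) * x = w * (𝔖 (insert 0 D) * x) := by
        rw [hwv]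
        ring
      rw [hSx] at habs
      obtain ⟨b1, b2⟩ := abs_le.1 habs
      obtain ⟨Z, hZ⟩ : ∃ Z, Z = w * (𝔖 (insert 0 D) * x) := ⟨_, rfl⟩
      rw [← hZ] at b1 b2
      have hZ0 : 0 ≤ Z := by rw [hZ]; positivity
      have hZM : Z * (1 / Real.log x ^ (k + 1)) = w * M := by
        rw [hZ, hMdef]
        ring
      have u1 := card_le_th D hD x g a hy1
      have u2 := th_le D hD hx2 hDN g a
      rw [← hcdef] at u1 u2
      have hth0 : 0 ≤ th D hD x g a := by
        rw [th_eq]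
        exact sum_nonneg fun m _ => tP_nonneg _ _ _
      rw [abs_le]
      constructor
      · -- lower bound
        have u3 : th D hD x g a * (1 / Real.log ((2 * N : ℕ) : ℝ) ^ (k + 1)) ≤ c := by
          rw [mul_one_div, div_le_iff₀ (by positivity)]
          linarith
        have u4 : Z * (1 / Real.log ((2 * N : ℕ) : ℝ) ^ (k + 1)) - y ≤ c := by
          have h1 : (1 : ℝ) / Real.log ((2 * N : ℕ) : ℝ) ^ (k + 1) ≤ 1 := by
            rw [div_le_one (by positivity)]
            apply one_le_pow₀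
            linarith
          have h2 : (0 : ℝ) ≤ 1 / Real.log ((2 * N : ℕ) : ℝ) ^ (k + 1) := by positivity
          nlinarith
        have u5 : w * M ≤ (1 + κ / 2) * (Z * (1 / Real.log ((2 * N : ℕ) : ℝ) ^ (k + 1))) := by
          rw [← hZM]
          have := mul_le_mul_of_nonneg_left hr2 hZ0
          linarith
        have u6 : Z * (1 / Real.log ((2 * N : ℕ) : ℝ) ^ (k + 1)) ≤ w * M := by
          rw [← hZM]
          apply mul_le_mul_of_nonneg_left _ hZ0
          apply one_div_le_one_div_of_le (by positivity)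
          exact pow_le_pow_left₀ hlx0.le hl2x _
        have u7 : κ / 2 * (Z * (1 / Real.log ((2 * N : ℕ) : ℝ) ^ (k + 1))) ≤ κ / 2 * M :=
          mul_le_mul_of_nonneg_left (u6.trans hwM) (by positivity)
        linarith
      · -- upper bound
        have u3 : th D hD x g a / Real.log y ^ (k + 1) ≤ (Z + y) * (1 / ℓ ^ (k + 1)) := by
          rw [div_eq_mul_one_div]
          have hly0 : 0 < Real.log y := by linarith
          have hq1 : (0 : ℝ) ≤ 1 / Real.log y ^ (k + 1) := by positivity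
          apply mul_le_mul (by linarith) _ hq1 (add_nonneg hZ0 hy0.le)
          apply one_div_le_one_div_of_le (by positivity)
          exact pow_le_pow_left₀ (by linarith) hly _
        have u4 : y * (1 / ℓ ^ (k + 1)) ≤ y := by
          apply mul_le_of_le_one_right hy0.le
          rw [div_le_one (by positivity)]
          exact one_le_pow₀ hℓ1
        have u5 : Z * (1 / ℓ ^ (k + 1)) ≤ (1 + κ / 2) * (w * M) := by
          rw [← hZM]
          have := mul_le_mul_of_nonneg_left hr1 hZ0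
          linarith
        have u6 : κ / 2 * (w * M) ≤ κ / 2 * M := mul_le_mul_of_nonneg_left hwM (by positivity)
        linarith
    · -- a class which is not admissible
      have hwz : w = 0 := by
        rw [hw]
        unfold mm
        rw [if_neg hAD]
      have h1 := card_closed D (x := x) hg1 hAD
      have h2 : c ≤ P := by
        rw [hcdef]
        exact_mod_cast h1.trans hgP
      have h3 : 0 ≤ c := by rw [hcdef]; exact Nat.cast_nonneg _
      rw [hwz, zero_mul, sub_zero, abs_of_nonneg h3]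
      linarith
  -- the number of the exceptions
  have hle : (((Icc 1 N).powersetCard k).filter (fun D => ¬ FL k κ P B N D)).card ≤
      ((Fintype.piFinset (fun _ : Fin k => Icc 1 N)).filter
        (fun h => ¬ GoodT A' Bq N (fun _ : Fin k => (1 : ℤ)) h)).card := by
    apply card_le_card_of_injOn (fun D : Finset ℕ => if hD : D.card = k then hh D hD else fun _ => 0)
    · intro D hDm
      rw [mem_coe, mem_filter] at hDm
      have h1 := mem_powersetCard.1 hDm.1
      simp only
      rw [dif_pos h1.2, mem_coe, mem_filter, Fintype.mem_piFinset]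
      refine ⟨fun i => h1.1 (hh_mem D h1.2 i), fun hG => hDm.2 (key D hDm.1 h1.2 hG)⟩
    · intro D hDm D' hDm' heq
      rw [mem_coe, mem_filter] at hDm hDm'
      have h1 := mem_powersetCard.1 hDm.1
      have h2 := mem_powersetCard.1 hDm'.1
      simp only at heq
      rw [dif_pos h1.2, dif_pos h2.2] at heq
      ext d
      constructor
      · intro hd
        obtain ⟨i, hi⟩ := hh_surj D h1.2 hd
        rw [← hi, heq]
        exact hh_mem D' h2.2 i
      · intro hd
        obtain ⟨i, hi⟩ := hh_surj D' h2.2 hd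
        rw [← hi, ← heq]
        exact hh_mem D h1.2 i
  calc _ ≤ (((Fintype.piFinset (fun _ : Fin k => Icc 1 N)).filter
        (fun h => ¬ GoodT A' Bq N (fun _ : Fin k => (1 : ℤ)) h)).card : ℝ) := by exact_mod_cast hle
    _ ≤ (N : ℝ) ^ k / L ^ A' := hcount
    _ ≤ (N : ℝ) ^ k / L ^ A := by
        apply div_le_div_of_nonneg_left (by positivity) (by positivity)
        apply pow_le_pow_right₀ hL1
        omega

end Pool.Agent.H90.KT
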