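import Pool.Agent.H90.KT.Fix

/-! # The law for large moduli, for almost all sets of shifts -/

set_option autoImplicit false

namespace Pool.Agent.H90.KT

open Finset Filter Topology Polynomial Pool.Agent.H90.SK
open Pool.Agent.Results.MP_485179_nt.AlmostPrimeProgressions (𝔖 adm_of_ne)
open Pool.Agent.H386R2.HL Pool.Agent.H387R2.Uni
open Pool.Agent.Results.MP_0bf1d2_nt.EveryNLargeModuli (count relative count_mod count_eq expected expected_eq
  primeArguments NoFixedPrime rel)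

variable {k : ℕ}

/-- the polynomials -/
noncomputable def ff (T : Finset ℕ) : Fin T.card → ℤ[X] := fun i => X + C ((en T i : ℕ) : ℤ)

theorem ff_eval (T : Finset ℕ) (i : Fin T.card) (n : ℕ) : (ff T i).eval (n : ℤ) = ((n + en T i : ℕ) : ℤ) := by
  unfold ff
  simp

theorem ff_deg (T : Finset ℕ) (i : Fin T.card) : (ff T i).natDegree = 1 := natDegree_X_add_C _

theorem ff_sum (T : Finset ℕ) : ∑ i, (ff T i).natDegree = T.card := by
  simp [ff_deg]

theorem omP_ff (T : Finset ℕ) {p : ℕ} (hp : 0 < p) : omP (ff T) p = omT T p := by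
  classical
  ext n
  unfold omP
  rw [mem_filter, mem_range]
  constructor
  · rintro ⟨hn, i, hi⟩
    rw [ff_eval] at hi
    have h1 := (mem_omT T hp n).2 ⟨en T i, en_mem T i, by exact_mod_cast hi⟩
    rwa [Nat.mod_eq_of_lt hn] at h1
  · intro hn
    have hlt := omT_lt T hn
    have h1 : n % p ∈ omT T p := by rwa [Nat.mod_eq_of_lt hlt]
    obtain ⟨t, ht, hd⟩ := (mem_omT T hp n).1 h1
    obtain ⟨i, hi⟩ := en_surj ht
    refine ⟨hlt, i, ?_⟩
    rw [ff_eval, hi]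
    exact_mod_cast hd

theorem nofix_ff {T : Finset ℕ} (h : 𝔖 T ≠ 0) : NoFixedPrime (ff T) := by
  classical
  intro p hp
  have h1 := adm_of_ne h p hp
  rw [← card_omT T hp] at h1
  obtain ⟨n, hn1, hn2⟩ := exists_mem_notMem_of_card_lt_card (s := omT T p) (t := range p)
    (by rw [card_range]; exact h1)
  refine ⟨n, fun i hi => hn2 ?_⟩
  rw [← omP_ff T hp.pos]
  unfold omP
  rw [mem_filter]
  exact ⟨hn1, i, hi⟩

theorem VV_ff (T : Finset ℕ) (y : ℕ) : VV (omP (ff T)) y = VV (omT T) y := by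
  unfold VV
  apply prod_congr rfl
  intro p hp
  rw [omP_ff T (mem_PR.1 hp).1.pos]

/-- the tuples -/
def Tu (T : Finset ℕ) : Set ℕ := {m | ∀ t ∈ T, (m + t).Prime}

theorem Tu_sub (T : Finset ℕ) : Tu T ⊆ primeArguments (ff T) := by
  intro m hm i
  rw [ff_eval, Int.natAbs_natCast]
  exact hm _ (en_mem T i)

theorem count_PT (D : Finset ℕ) (x q a : ℕ) : count (Tu (insert 0 D)) x q a = ((PT D x q a).card : ℝ) := by
  classical
  rw [count_eq]
  congr 2
  unfold PT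
  apply filter_congr
  intro m _
  unfold Tu
  simp only [Set.mem_ofPred_eq, mem_insert, forall_eq_or_imp, add_zero]
  tauto

theorem VV_mono {l : ℕ} {Om : ℕ → Finset ℕ} (h : Adm l Om) {y z : ℕ} (hyz : y ≤ z) : VV Om z ≤ VV Om y := by
  have hsub : PR y ⊆ PR z := fun p hp => mem_PR.2 ⟨(mem_PR.1 hp).1, (mem_PR.1 hp).2.trans hyz⟩
  unfold VV
  rw [← prod_sdiff hsub]
  apply mul_le_of_le_one_left
  · exact prod_nonneg fun p hp => (fac_pos h (mem_PR.1 hp).1).le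
  · apply prod_le_one
    · intro p hp
      exact (fac_pos h (mem_PR.1 (mem_sdiff.1 hp).1).1).le
    · intro p _
      have : 0 ≤ ((Om p).card : ℝ) / p := by positivity
      linarith

/-- the order of the number of the solutions -/
theorem order (k : ℕ) : ∃ (c C : ℝ) (y₀ : ℕ), 0 < c ∧ 0 < C ∧ ∀ N : ℕ, y₀ ≤ N → ∀ D : Finset ℕ, D.card = k → 0 ∉ D →
    (∀ d ∈ D, d ≤ N) → 𝔖 (insert 0 D) ≠ 0 → ∀ x : ℕ, y₀ ≤ x → x ≤ N → Real.log N ≤ 2 * Real.log x →
      c * mn k D x ≤ expected (ff (insert 0 D)) x ∧ expected (ff (insert 0 D)) x ≤ C * mn k D x := by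
  obtain ⟨c₁, C₁, hc₁, hC₁, y₁, h1⟩ := Pool.Agent.Q212.Sing.VT_bounds (k + 1)
  obtain ⟨C₂, hC₂, h2⟩ := VV_le_S (k + 1)
  refine ⟨c₁ / 2 ^ (k + 1), C₂, max y₁ (4 * (k + 1) ^ 2 + 2), by positivity, hC₂, ?_⟩
  intro N hN D hD h0 hDN hS x hx hxN hlog
  have hT : (insert 0 D).card = k + 1 := by rw [card_insert_of_notMem h0, hD]
  have hadm : Adm (k + 1) (omT (insert 0 D)) := adm_omT hS hT.le
  have hx2 : 2 ≤ x := by
    have := (le_max_right y₁ (4 * (k + 1) ^ 2 + 2)).trans hx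
    omega
  have hxr : (0 : ℝ) < x := by exact_mod_cast (by omega : 0 < x)
  have hlx : 0 < Real.log x := Real.log_pos (by exact_mod_cast (by omega : 1 < x))
  have hS0 : 0 ≤ 𝔖 (insert 0 D) := S_nonneg _
  rw [expected_eq, VV_ff]
  unfold mn
  constructor
  · have h3 := (h1 N ((le_max_left _ _).trans hN) (insert 0 D) hT (by
      intro t ht
      rw [mem_insert] at ht
      rcases ht with rfl | ht
      · omega
      · exact hDN t ht)).1
    rw [← VV_omT] at h3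
    have h4 := VV_mono hadm hxN
    have h5 : 0 < Real.log N := Real.log_pos (by exact_mod_cast (by omega : 1 < N))
    have h6 : c₁ / 2 ^ (k + 1) * (𝔖 (insert 0 D) / Real.log x ^ (k + 1)) ≤
        c₁ * 𝔖 (insert 0 D) / Real.log N ^ (k + 1) := by
      rw [div_mul_div_comm, ← mul_pow]
      apply div_le_div_of_nonneg_left (by positivity) (by positivity)
      exact pow_le_pow_left₀ h5.le hlog _
    have h7 : c₁ / 2 ^ (k + 1) * (𝔖 (insert 0 D) / Real.log x ^ (k + 1)) ≤ VV (omT (insert 0 D)) x :=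
      h6.trans (h3.trans h4)
    calc c₁ / 2 ^ (k + 1) * (𝔖 (insert 0 D) * x / Real.log x ^ (k + 1)) =
          x * (c₁ / 2 ^ (k + 1) * (𝔖 (insert 0 D) / Real.log x ^ (k + 1))) := by ring
      _ ≤ _ := mul_le_mul_of_nonneg_left h7 hxr.le
  · have h3 := h2 x ((le_max_right _ _).trans hx) (insert 0 D) hT
    calc (x : ℝ) * VV (omT (insert 0 D)) x ≤ x * (C₂ * 𝔖 (insert 0 D) / Real.log x ^ (k + 1)) :=
          mul_le_mul_of_nonneg_left h3 hxr.le
      _ = _ := by ring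

/-- the law for large moduli for one set -/
def LL (k : ℕ) (δ ε : ℝ) (D : Finset ℕ) (x : ℕ) : Prop :=
  ∀ K : ℕ, 1 ≤ K → (K : ℝ) ≤ δ * mn k D x →
    ∑ q ∈ Ico K (2 * K), ∑ a ∈ range q, (((PT D x q a).card : ℝ) - mn k D x * mm (omT (insert 0 D)) q a) ^ 2 ≤
      ε * mn k D x ^ 2

theorem sizes (B x₀ : ℕ) : ∃ N₀ : ℕ, ∀ N : ℕ, N₀ ≤ N → x₀ ≤ N ∧ 3 ≤ N ∧ ∀ x : ℕ, (N : ℝ) / Real.log N ^ B ≤ x →
    x₀ ≤ x ∧ Real.log N ≤ 2 * Real.log x := by
  have h1 : ∀ᶠ y : ℝ in atTop, ‖Real.log y ^ B‖ ≤ (1 / 2 ^ B) * ‖id y‖ :=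
    (Real.isLittleO_pow_log_id_atTop (n := B)).def (by positivity)
  have hsq : Tendsto (fun N : ℕ => √(N : ℝ)) atTop atTop :=
    Real.tendsto_sqrt_atTop.comp tendsto_natCast_atTop_atTop
  obtain ⟨N₀, hN₀⟩ := eventually_atTop.1 ((hsq.eventually h1).and
    ((hsq.eventually_ge_atTop (x₀ : ℝ)).and ((eventually_ge_atTop x₀).and (eventually_ge_atTop 3))))
  refine ⟨N₀, fun N hN => ?_⟩
  obtain ⟨e1, e2, e3, e4⟩ := hN₀ N hN
  refine ⟨e3, e4, fun x hx => ?_⟩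
  have hN1 : (1 : ℝ) < N := by exact_mod_cast (by omega : 1 < N)
  have hN0 : (0 : ℝ) < N := by linarith
  have hs : √(N : ℝ) * √(N : ℝ) = N := Real.mul_self_sqrt hN0.le
  have hs0 : 0 < √(N : ℝ) := Real.sqrt_pos.2 hN0
  have hlog : Real.log N = 2 * Real.log √(N : ℝ) := by
    rw [Real.log_sqrt hN0.le]
    ring
  have hl : 0 < Real.log N := Real.log_pos hN1
  have hls : 0 < Real.log √(N : ℝ) := by linarith
  rw [Real.norm_of_nonneg (by positivity), id, Real.norm_of_nonneg hs0.le] at e1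
  have h2 : √(N : ℝ) ≤ N / Real.log N ^ B := by
    rw [le_div_iff₀ (by positivity), hlog, mul_pow]
    have h3 : 2 ^ B * Real.log √(N : ℝ) ^ B ≤ √(N : ℝ) := by
      have := mul_le_mul_of_nonneg_left e1 (by positivity : (0 : ℝ) ≤ 2 ^ B)
      have e : (2 : ℝ) ^ B * (1 / 2 ^ B * √(N : ℝ)) = √(N : ℝ) := by field_simp
      linarith
    calc √(N : ℝ) * (2 ^ B * Real.log √(N : ℝ) ^ B) ≤ √(N : ℝ) * √(N : ℝ) := mul_le_mul_of_nonneg_left h3 hs0.le
      _ = N := hs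
  have h3 : √(N : ℝ) ≤ x := h2.trans hx
  refine ⟨by exact_mod_cast e2.trans h3, ?_⟩
  rw [hlog]
  have := Real.log_le_log hs0 h3
  linarith

open Classical in
/-- **The law for large moduli.** -/
theorem law (k : ℕ) (ε : ℝ) (hε : 0 < ε) : ∃ δ : ℝ, 0 < δ ∧ ∀ A B : ℕ, ∃ N₀ : ℕ, ∀ N : ℕ, N₀ ≤ N →
    ((((Icc 1 N).powersetCard k).filter (fun D => ¬ ∀ x : ℕ, (N : ℝ) / Real.log N ^ B ≤ x → x ≤ N →
      LL k δ ε D x)).card : ℝ) ≤ (N : ℝ) ^ k / Real.log N ^ A := by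
  obtain ⟨c₁, c₂, y₀, hc₁, hc₂, hcmp⟩ := order k
  obtain ⟨CV, hCV, hV⟩ := VQ_sum (k + 1) (by omega)
  obtain ⟨P₀, x₀, δ₁, hP₀, hx₀, hδ₁, hrel⟩ := rel (k + 1) (by omega) (ε / (9 * c₂ ^ 2)) (by positivity)
  set K₀ : ℕ := ⌈9 * CV / ε⌉₊ + 1 with hK₀
  have hK₀1 : 1 ≤ K₀ := by omega
  have hK₀0 : (0 : ℝ) < K₀ := by exact_mod_cast hK₀1
  have hCK : CV / K₀ ≤ ε / 9 := by
    rw [div_le_div_iff₀ hK₀0 (by norm_num)]
    have h1 : 9 * CV / ε ≤ K₀ := by
      rw [hK₀]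
      push_cast
      linarith [Nat.le_ceil (9 * CV / ε)]
    rw [div_le_iff₀ hε] at h1
    linarith
  set P : ℕ := P₀ * K₀.factorial with hP
  have hP1 : 1 ≤ P := Nat.mul_pos hP₀ (Nat.factorial_pos _)
  have hP0 : (0 : ℝ) < P := by exact_mod_cast hP1
  have hKP : ∀ d, 1 ≤ d → d ≤ K₀ → d ∣ P := fun d hd1 hd2 => Dvd.dvd.mul_left (Nat.dvd_factorial hd1 hd2) _
  have hP₀P : P₀ ∣ P := Dvd.intro _ rfl
  refine ⟨δ₁ * c₁, by positivity, fun A B => ?_⟩
  obtain ⟨N₁, hN₁⟩ := fixedK k B A P (√ε / (3 * (P : ℝ))) (by positivity)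
  obtain ⟨N₂, hN₂⟩ := sizes B (max x₀ y₀)
  refine ⟨max N₁ N₂, fun N hN => le_trans ?_ (hN₁ N ((le_max_left _ _).trans hN))⟩
  obtain ⟨s1, s2, s3⟩ := hN₂ N ((le_max_right _ _).trans hN)
  apply Nat.cast_le.2
  apply card_le_card
  intro D hD
  rw [mem_filter] at hD ⊢
  refine ⟨hD.1, fun hFL => hD.2 ?_⟩
  obtain ⟨hDN, hDk⟩ := mem_powersetCard.1 hD.1
  have h0 : 0 ∉ D := by
    intro h
    have := (mem_Icc.1 (hDN h)).1
    omega
  intro x hx1 hx2 K hK hKδ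
  obtain ⟨s4, s5⟩ := s3 x hx1
  have hx2' : 2 ≤ x := hx₀.trans ((le_max_left _ _).trans s4)
  have hK0 : (1 : ℝ) ≤ K := by exact_mod_cast hK
  -- the singular series is not zero
  have hS : 𝔖 (insert 0 D) ≠ 0 := by
    intro hS
    have h1 : mn k D x = 0 := by
      unfold mn
      rw [hS]
      simp
    rw [h1, mul_zero] at hKδ
    linarith
  have hT : (insert 0 D).card = k + 1 := by rw [card_insert_of_notMem h0, hDk]
  have hadm : Adm (k + 1) (omT (insert 0 D)) := adm_omT hS hT.le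
  obtain ⟨o1, o2⟩ := hcmp N ((le_max_right _ _).trans s1) D hDk h0 (fun d hd => (mem_Icc.1 (hDN hd)).2) hS x
    ((le_max_right _ _).trans s4) hx2 s5
  obtain ⟨R, hR⟩ : ∃ R, R = mn k D x := ⟨_, rfl⟩
  have hfix := hFL hS x hx1 hx2
  rw [← hR] at o1 o2 hKδ hfix ⊢
  have hRpos : 0 < R := by
    have h1 : 0 < δ₁ * c₁ * R := by linarith
    exact (mul_pos_iff_of_pos_left (by positivity)).1 h1
  have hEpos : 0 ≤ expected (ff (insert 0 D)) x := le_trans (by positivity) o1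
  -- the relative law
  have hr := hrel _ (ff (insert 0 D)) (fun i => by rw [ff_deg]) (by rw [ff_sum, hT]) (nofix_ff hS)
    (Tu (insert 0 D)) (Tu_sub _) x ((le_max_left _ _).trans s4) P hP1 hP₀P K hK (by
      calc (K : ℝ) ≤ δ₁ * c₁ * R := hKδ
        _ = δ₁ * (c₁ * R) := by ring
        _ ≤ δ₁ * expected (ff (insert 0 D)) x := mul_le_mul_of_nonneg_left o1 hδ₁.le)
  have hE2 : expected (ff (insert 0 D)) x ^ 2 ≤ (c₂ * R) ^ 2 := pow_le_pow_left₀ hEpos o2 2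
  have hrelT : relT (count (Tu (insert 0 D)) x) P K = relative (Tu (insert 0 D)) x P K := rfl
  have hr3 : 3 * relT (count (Tu (insert 0 D)) x) P K ≤ ε / 3 * R ^ 2 := by
    rw [hrelT]
    calc 3 * relative (Tu (insert 0 D)) x P K ≤
          3 * (ε / (9 * c₂ ^ 2) * expected (ff (insert 0 D)) x ^ 2) := by linarith
      _ ≤ 3 * (ε / (9 * c₂ ^ 2) * (c₂ * R) ^ 2) := by
          apply mul_le_mul_of_nonneg_left _ (by norm_num)
          exact mul_le_mul_of_nonneg_left hE2 (by positivity)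
      _ = ε / 3 * R ^ 2 := by
          field_simp
          ring
  -- the error of the fixed classes
  have hη2 : 3 * ((P : ℝ) ^ 2 * (√ε / (3 * P) * R) ^ 2) ≤ ε / 3 * R ^ 2 := by
    apply le_of_eq
    rw [mul_pow, div_pow, Real.sq_sqrt hε.le]
    field_simp
  have hmain := explicit (Om := omT (insert 0 D)) (count (Tu (insert 0 D)) x)
    (fun g a => count_mod _ x g a) hP1 hK R (√ε / (3 * P) * R) (CV / K₀)
    (hV _ hadm K₀ P K hK₀1 hKP hK) (fun g hg1 hgP a ha => by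
      have h1 := hfix g a hg1 (Nat.le_of_dvd hP1 hgP) ha
      rw [count_PT, mul_comm R]
      exact h1)
  have hlast : 3 * (R ^ 2 * (CV / K₀)) ≤ ε / 3 * R ^ 2 := by
    have := mul_le_mul_of_nonneg_left hCK (sq_nonneg R)
    linarith
  simp only [← count_PT]
  linarith

end Pool.Agent.H90.KT
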