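import Pool.Agent.H90.SK.Tup
import Pool.Agent.H90.SK.Ex
import Pool.Agent.H90.SK.Uni
import Pool.Agent.Results.MP_0bf1d2_nt.EveryNLargeModuli
import Pool.Graph.R_pool_sql_team_seeded_620a6dc7.H735K.ThmK

/-! # Prime tuples in all classes for almost all shifts: the singular series -/

set_option autoImplicit false

namespace Pool.Agent.H90.KT

open Finset Filter Topology Pool.Agent.H90.SK
open Pool.Agent.Results.MP_485179_nt.AlmostPrimeProgressions (𝔖 adm_of_ne)
open Pool.Agent.H386R2.HL Pool.Agent.H387R2.Uni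
open Pool.Agent.H373R2.T7 (nuP singZ lamP)
open Pool.Agent.H735K (Fa phF redF thT tP GoodT thmK)

/-- the truncated products converge to the singular series -/
theorem lim_S (T : Finset ℕ) : Tendsto (fun z => sy (en T) z) atTop (𝓝 (𝔖 T)) := by
  classical
  have hm := (multipliable_localFactor (en T) (en_inj T)).hasProd
  have e : ∏' p : Nat.Primes, localFactor (en T) p = 𝔖 T := CT_en T
  rw [e] at hm
  set f : ℕ → Finset Nat.Primes := fun z => (z + 1).primesBelow.preimage (fun p : Nat.Primes => (p : ℕ))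
    Subtype.val_injective.injOn with hf
  have hmem : ∀ z (p : Nat.Primes), p ∈ f z ↔ (p : ℕ) ≤ z := by
    intro z p
    rw [hf, mem_preimage, Nat.mem_primesBelow]
    constructor
    · rintro ⟨h, _⟩; omega
    · intro h; exact ⟨by omega, p.2⟩
  have hmono : Monotone f := by
    intro a b hab p hp
    rw [hmem] at hp ⊢
    omega
  have ht : Tendsto f atTop atTop := tendsto_atTop_finset_of_monotone hmono (fun p => ⟨p, (hmem _ _).2 le_rfl⟩)
  have h1 := Tendsto.comp hm ht
  refine h1.congr fun z => ?_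
  unfold sy
  simp only [Function.comp]
  rw [hf]
  refine prod_preimage (fun p : Nat.Primes => (p : ℕ)) _ Subtype.val_injective.injOn
    (fun p : ℕ => localFactor (en T) p) ?_
  intro p hp hp2
  exact absurd ⟨⟨p, Nat.prime_of_mem_primesBelow hp⟩, rfl⟩ hp2

theorem omT_lt (T : Finset ℕ) {p n : ℕ} (h : n ∈ omT T p) : n < p := by
  unfold omT Pool.Agent.Y840.PT.ZT at h
  exact mem_range.1 (mem_filter.1 h).1

variable {k : ℕ}

/-- the shifts -/
noncomputable def hh (D : Finset ℕ) (hD : D.card = k) (i : Fin k) : ℕ := D.orderEmbOfFin hD i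

theorem hh_mem (D : Finset ℕ) (hD : D.card = k) (i : Fin k) : hh D hD i ∈ D := orderEmbOfFin_mem D hD i

theorem hh_surj (D : Finset ℕ) (hD : D.card = k) {d : ℕ} (hd : d ∈ D) : ∃ i, hh D hD i = d := by
  have : d ∈ Set.range (D.orderEmbOfFin hD) := by
    rw [range_orderEmbOfFin]
    exact hd
  obtain ⟨i, hi⟩ := this
  exact ⟨i, hi⟩

/-- the shifts as integers -/
noncomputable def ha (D : Finset ℕ) (hD : D.card = k) (i : Fin k) : ℤ := (1 : ℤ) * (hh D hD i : ℤ)

theorem dvd_iff (D : Finset ℕ) (hD : D.card = k) (p r : ℕ) :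
    (p ∣ r ∨ ∃ i, (p : ℤ) ∣ (r : ℤ) + ha D hD i) ↔ ∃ t ∈ insert 0 D, p ∣ r + t := by
  constructor
  · rintro (h | ⟨i, h⟩)
    · exact ⟨0, mem_insert_self _ _, h⟩
    · refine ⟨hh D hD i, mem_insert_of_mem (hh_mem D hD i), ?_⟩
      unfold ha at h
      rw [one_mul] at h
      exact_mod_cast h
  · rintro ⟨t, ht, h⟩
    rcases mem_insert.1 ht with h0 | h0
    · left
      rw [h0] at h
      exact h
    · right
      obtain ⟨i, hi⟩ := hh_surj D hD h0
      refine ⟨i, ?_⟩
      unfold ha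
      rw [one_mul, hi]
      exact_mod_cast h

theorem nuP_omT (D : Finset ℕ) (hD : D.card = k) {p : ℕ} (hp : p.Prime) :
    nuP (ha D hD) p = (omT (insert 0 D) p).card := by
  unfold nuP
  congr 1
  ext r
  rw [mem_filter, mem_range]
  constructor
  · rintro ⟨h1, h2⟩
    have h3 := (mem_omT (insert 0 D) hp.pos r).2 ((dvd_iff D hD p r).1 h2)
    rwa [Nat.mod_eq_of_lt h1] at h3
  · intro h
    have h1 := omT_lt _ h
    refine ⟨h1, (dvd_iff D hD p r).2 ((mem_omT (insert 0 D) hp.pos r).1 ?_)⟩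
    rwa [Nat.mod_eq_of_lt h1]

theorem singZ_eq (D : Finset ℕ) (hD : D.card = k) (h0 : 0 ∉ D) (z : ℕ) :
    singZ (ha D hD) z = sy (en (insert 0 D)) z := by
  have hc : (insert 0 D).card = k + 1 := by rw [card_insert_of_notMem h0, hD]
  have hV : (0 : ℝ) < Pool.Agent.H318R2.Cr.V z ^ (k + 1) := pow_pos (Pool.Agent.H318R2.Cr.V_pos z) _
  have h1 := Pool.Agent.Q212.Sing.VT_eq (insert 0 D) z
  have e3 : Pool.Agent.H318R2.Cr.V z ^ (insert 0 D).card = Pool.Agent.H318R2.Cr.V z ^ (k + 1) := by rw [hc]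
  rw [e3] at h1
  have h2 : singZ (ha D hD) z * Pool.Agent.H318R2.Cr.V z ^ (k + 1) = Pool.Agent.Q212.Sing.VT (insert 0 D) z := by
    rw [← VV_omT]
    have hVz : Pool.Agent.H318R2.Cr.V z = ∏ p ∈ (Icc 1 z).filter Nat.Prime, (1 - 1 / (p : ℝ)) := by
      unfold Pool.Agent.H318R2.Cr.V
      congr 1
    rw [hVz]
    unfold singZ VV PR
    rw [← prod_pow, ← prod_mul_distrib]
    apply prod_congr rfl
    intro p hp
    have hpp := (mem_filter.1 hp).2
    rw [nuP_omT D hD hpp]
    have hp1 : (1 : ℝ) < p := by exact_mod_cast hpp.one_lt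
    have h3 : (0 : ℝ) < 1 - 1 / (p : ℝ) := by
      rw [sub_pos, div_lt_one (by linarith)]
      exact hp1
    rw [div_mul_cancel₀ _ (pow_pos h3 _).ne']
  rw [h1] at h2
  exact mul_right_cancel₀ hV.ne' h2

/-- the classes -/
theorem redF_iff (D : Finset ℕ) (hD : D.card = k) {q : ℕ} (hq : 1 ≤ q) (r : ℕ) :
    Int.gcd (Fa (ha D hD) r) q = 1 ↔ AD (omT (insert 0 D)) q r := by
  unfold AD
  constructor
  · intro h p hp hr
    have hpp := Nat.prime_of_mem_primeFactors hp
    have hpq := Nat.dvd_of_mem_primeFactors hp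
    have h1 := (dvd_iff D hD p r).2 ((mem_omT _ hpp.pos r).1 hr)
    have h2 : (p : ℤ) ∣ Fa (ha D hD) r := by
      rw [Pool.Agent.H735K.Fa_dvd _ _ hpp]
      rcases h1 with h1 | h1
      · exact Or.inl (by exact_mod_cast h1)
      · exact Or.inr h1
    have h3 : (p : ℤ) ∣ (Int.gcd (Fa (ha D hD) r) q : ℤ) := Int.dvd_coe_gcd h2 (by exact_mod_cast hpq)
    rw [h] at h3
    have h4 : p ∣ 1 := by exact_mod_cast h3
    exact hpp.one_lt.ne' (Nat.dvd_one.1 h4)
  · intro h
    by_contra hne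
    obtain ⟨p, hp, hpd⟩ := Nat.exists_prime_and_dvd hne
    have h1 : (p : ℤ) ∣ Fa (ha D hD) r := (Int.natCast_dvd_natCast.2 hpd).trans (Int.gcd_dvd_left _ _)
    have h2 : (p : ℤ) ∣ (q : ℤ) := (Int.natCast_dvd_natCast.2 hpd).trans (Int.gcd_dvd_right _ _)
    have hpq : p ∣ q := by exact_mod_cast h2
    rw [Pool.Agent.H735K.Fa_dvd _ _ hp] at h1
    refine h p (Nat.mem_primeFactors.2 ⟨hp, hpq, by omega⟩) ((mem_omT _ hp.pos r).2 ((dvd_iff D hD p r).1 ?_))
    rcases h1 with h1 | h1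
    · exact Or.inl (by exact_mod_cast h1)
    · exact Or.inr h1

theorem phF_ad (D : Finset ℕ) (hD : D.card = k) {q : ℕ} (hq : 1 ≤ q) :
    phF (Fa (ha D hD)) q = ad (omT (insert 0 D)) q := by
  classical
  unfold phF ad
  congr 1
  ext r
  simp only [mem_filter, redF_iff D hD hq]

end Pool.Agent.H90.KT
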